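import Mathlib
import Pool.Agent.Lib.MP_823cfe_an.Ext

/-!
# Uniform homeomorphism of the spheres of `X` and `X ⊕ ℝ` from a superreflexive subspace

`Y` is a uniformly convex Banach space embedded isomorphically in `X` (a superreflexive closed
subspace), `V` is a quotient of `Y`, or the quotient of `X` by the image of `Y`.  If `V` is
isomorphic to `V × ℝ`, or only the spheres of `V × ℝ` and `V` are uniformly homeomorphic, then
the unit spheres of `X × ℝ` and `X` are uniformly homeomorphic.
-/

set_option autoImplicit false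

namespace Pool.Agent.Results.MP_823cfe_an.SuperreflexiveSubquotient

open Pool.Agent.Lib.MP823

theorem result (X Y V : Type*) [NormedAddCommGroup X] [NormedSpace ℝ X] [CompleteSpace X]
    [NormedAddCommGroup Y] [NormedSpace ℝ Y] [CompleteSpace Y] [UniformConvexSpace Y]
    [NormedAddCommGroup V] [NormedSpace ℝ V] [CompleteSpace V]
    (j : Y →L[ℝ] X) (c : ℝ) (hj : ∀ y : Y, ‖y‖ ≤ c * ‖j y‖)
    (hV : (∃ p : Y →L[ℝ] V, Function.Surjective p) ∨
      (∃ p : X →L[ℝ] V, Function.Surjective p ∧ ∀ x : X, p x = 0 ↔ ∃ y : Y, j y = x))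
    (h : Nonempty (V ≃L[ℝ] V × ℝ) ∨
      Nonempty (UniformEquiv (Metric.sphere (0 : V × ℝ) 1) (Metric.sphere (0 : V) 1))) :
    Nonempty (UniformEquiv (Metric.sphere (0 : X × ℝ) 1) (Metric.sphere (0 : X) 1)) := by
  set c' : ℝ := max c 1 with hc'
  have hc0 : 0 < c' := lt_of_lt_of_le one_pos (le_max_right _ _)
  have hj' : ∀ y : Y, ‖y‖ ≤ c' * ‖j y‖ := fun y =>
    (hj y).trans (mul_le_mul_of_nonneg_right (le_max_left _ _) (norm_nonneg _))
  have hVR : HU (V × ℝ) V := by
    rcases h with ⟨⟨e⟩⟩ | ⟨⟨e⟩⟩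
    · exact HU.ofCLE e.symm
    · exact HU.ofSphere e
  rcases hV with ⟨p, hp⟩ | ⟨p, hp, hex⟩
  · -- `V` is a quotient of `Y`
    have hcl : IsClosed ((LinearMap.range (j : Y →ₗ[ℝ] X) : Submodule ℝ X) : Set X) := by
      have hanti : AntilipschitzWith (⟨c', hc0.le⟩ : NNReal) j :=
        AddMonoidHomClass.antilipschitz_of_bound j hj'
      have := hanti.isClosed_range j.uniformContinuous
      rwa [LinearMap.coe_range]
    have := hcl
    set S : Submodule ℝ X := LinearMap.range (j : Y →ₗ[ℝ] X) with hS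
    have h1 : HU X (Y × (X ⧸ S)) := by
      refine HU.ofExtension j hc0 hj' S.mkQL ?_ ?_
      · rw [Submodule.coe_mkQL]; exact S.mkQ_surjective
      · intro x
        rw [Submodule.mkQL_apply, Submodule.mkQ_apply, Submodule.Quotient.mk_eq_zero, hS,
          LinearMap.mem_range]
        rfl
    set Z : Submodule ℝ Y := LinearMap.ker (p : Y →ₗ[ℝ] V) with hZ
    have hZc : IsClosed (Z : Set Y) := by
      have : (Z : Set Y) = p ⁻¹' {0} := by
        ext y; simp [hZ]
      rw [this]
      exact isClosed_singleton.preimage p.continuous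
    have : CompleteSpace Z := hZc.completeSpace_coe
    have : UniformConvexSpace Z := uniformConvex_submodule Z
    have h2 : HU Y (Z × V) := by
      refine HU.ofExtension Z.subtypeL one_pos (fun w => ?_) p hp ?_
      · rw [one_mul]; exact le_rfl
      · intro y
        constructor
        · intro hy
          exact ⟨⟨y, by rw [hZ, LinearMap.mem_ker]; exact hy⟩, rfl⟩
        · rintro ⟨w, rfl⟩
          exact LinearMap.mem_ker.1 w.2
    have h3 : HU (Y × ℝ) Y :=
      ((h2.prod HU.refl).trans (HU.prodAssoc.trans (HU.refl.prod hVR))).trans h2.symm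
    have h4 : HU (X × ℝ) X := by
      refine (h1.prod HU.refl).trans ?_
      refine (HU.prodAssoc.trans (HU.refl.prod HU.prodComm)).trans ?_
      refine (HU.prodAssoc.symm.trans (?_ : HU ((Y × ℝ) × (X ⧸ S)) X))
      exact (h3.prod HU.refl).trans h1.symm
    exact h4.toSphere
  · have h1 : HU X (Y × V) := HU.ofExtension j hc0 hj' p hp hex
    have h4 : HU (X × ℝ) X :=
      ((h1.prod HU.refl).trans (HU.prodAssoc.trans (HU.refl.prod hVR))).trans h1.symm
    exact h4.toSphere

end Pool.Agent.Results.MP_823cfe_an.SuperreflexiveSubquotient
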